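import Mathlib

/-!
# A domino game on the line which `A` wins without passing and `B` wins with passing

The alphabet has six colours `r 0, r 1, r 2, l 0, l 1, l 2`. The forbidden patterns are the words
`r i, l i` and the words `r b, r a, r 0, l a, l b`.
-/

set_option autoImplicit false

namespace Pool.Agent.Results.MP_d015f1_co.PassingHelps

/-- A finite pattern: a finite support `supp` and the colours of its cells (the values of `col` outside
the support are irrelevant). -/
structure Pattern (d : ℕ) (𝒜 : Type) where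
  supp : Finset (Fin d → ℤ)
  col : (Fin d → ℤ) → 𝒜

/-- The pattern `p` appears in the partial colouring `q`. -/
def Appears {d : ℕ} {𝒜 : Type} (p : Pattern d 𝒜) (q : (Fin d → ℤ) → Option 𝒜) : Prop :=
  ∃ i : Fin d → ℤ, ∀ s ∈ p.supp, q (i + s) = some (p.col s)

/-- A move (of either player) from `q` to `q'` on the board `E`: colour an uncoloured cell of `E`, or, if
`pass` holds, pass. -/
def Move {d : ℕ} {𝒜 : Type} (E : Set (Fin d → ℤ)) (pass : Prop)
    (q q' : (Fin d → ℤ) → Option 𝒜) : Prop :=
  (pass ∧ q' = q) ∨ ∃ i ∈ E, q i = none ∧ ∃ a : 𝒜, q' = Function.update q i (some a)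

/-- The positions that are winning for `A` in the domino game with forbidden patterns `F` on the board
`E`, where passing is allowed if and only if `pass` holds. `WinsA F E pass true q` is for the position
`q` with `A` to move and `WinsA F E pass false q` for the position `q` with `B` to move. Positions in
which a forbidden pattern appears are winning for `A`, a position with `A` to move is winning for `A` if
some move leads to a winning position, and a position with `B` to move is winning for `A` if there is
a move and every move leads to a winning position. All other positions are winning for `B`. -/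
inductive WinsA {d : ℕ} {𝒜 : Type} (F : Set (Pattern d 𝒜)) (E : Set (Fin d → ℤ)) (pass : Prop) :
    Bool → ((Fin d → ℤ) → Option 𝒜) → Prop
  | final {t : Bool} {q : (Fin d → ℤ) → Option 𝒜} (h : ∃ p ∈ F, Appears p q) :
      WinsA F E pass t q
  | moveA {q q' : (Fin d → ℤ) → Option 𝒜} (h : Move E pass q q')
      (hw : WinsA F E pass false q') : WinsA F E pass true q
  | moveB {q : (Fin d → ℤ) → Option 𝒜} (h : ∃ q', Move E pass q q')
      (hw : ∀ q', Move E pass q q' → WinsA F E pass true q') : WinsA F E pass false q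

/-- The colours. -/
inductive Col
  | r (i : Fin 3)
  | l (i : Fin 3)
  deriving DecidableEq, Fintype

open Col

/-- The cell with coordinate `x`. -/
def V (x : ℤ) : Fin 1 → ℤ := fun _ => x

theorem V_inj {x y : ℤ} : V x = V y ↔ x = y :=
  ⟨fun h => congrFun h 0, fun h => by rw [h]⟩

theorem V_add (x y : ℤ) : V x + V y = V (x + y) := rfl

theorem eq_V (i : Fin 1 → ℤ) : i = V (i 0) := by
  funext k
  rw [Subsingleton.elim k 0]
  rfl

/-- The pattern given by a word on consecutive cells. -/
def wordPattern (w : List Col) : Pattern 1 Col where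
  supp := (Finset.range w.length).image (fun k : ℕ => V k)
  col := fun i => w.getD (i 0).toNat (r 0)

theorem appears_word (w : List Col) (q : (Fin 1 → ℤ) → Option Col) :
    Appears (wordPattern w) q ↔
      ∃ x : ℤ, ∀ k : ℕ, k < w.length → q (V (x + k)) = some (w.getD k (r 0)) := by
  unfold Appears wordPattern
  simp only [Finset.mem_image, Finset.mem_range, forall_exists_index, and_imp,
    forall_apply_eq_imp_iff₂]
  constructor
  · rintro ⟨i, hi⟩
    refine ⟨i 0, fun k hk => ?_⟩
    have h := hi k hk
    rw [eq_V i, V_add] at h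
    simpa [V] using h
  · rintro ⟨x, hx⟩
    refine ⟨V x, fun k hk => ?_⟩
    have h := hx k hk
    rw [V_add]
    simpa [V] using h

/-- The forbidden patterns. -/
def F : Set (Pattern 1 Col) :=
  Set.range (fun i : Fin 3 => wordPattern [r i, l i]) ∪
  Set.range (fun ab : Fin 3 × Fin 3 => wordPattern [r ab.2, r ab.1, r 0, l ab.1, l ab.2])

theorem F_finite : F.Finite := (Set.finite_range _).union (Set.finite_range _)

/-- A position contains a forbidden word. -/
def Bad (c : ℤ → Option Col) : Prop :=
  (∃ x i, c x = some (r i) ∧ c (x + 1) = some (l i)) ∨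
  (∃ x a b, c x = some (r b) ∧ c (x + 1) = some (r a) ∧ c (x + 2) = some (r 0) ∧
    c (x + 3) = some (l a) ∧ c (x + 4) = some (l b))

theorem final_iff (q : (Fin 1 → ℤ) → Option Col) :
    (∃ p ∈ F, Appears p q) ↔ Bad (fun x => q (V x)) := by
  constructor
  · rintro ⟨p, hp | hp, h⟩
    · obtain ⟨i, rfl⟩ := hp
      rw [appears_word] at h
      obtain ⟨x, hx⟩ := h
      refine Or.inl ⟨x, i, ?_, ?_⟩
      · simpa using hx 0 (by simp)
      · simpa using hx 1 (by simp)
    · obtain ⟨⟨a, b⟩, rfl⟩ := hp
      rw [appears_word] at h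
      obtain ⟨x, hx⟩ := h
      refine Or.inr ⟨x, a, b, ?_, ?_, ?_, ?_, ?_⟩
      · simpa using hx 0 (by simp)
      · simpa using hx 1 (by simp)
      · simpa using hx 2 (by simp)
      · simpa using hx 3 (by simp)
      · simpa using hx 4 (by simp)
  · rintro (⟨x, i, h0, h1⟩ | ⟨x, a, b, h0, h1, h2, h3, h4⟩)
    · refine ⟨_, Or.inl ⟨i, rfl⟩, ?_⟩
      rw [appears_word]
      refine ⟨x, fun k hk => ?_⟩
      simp only [List.length_cons, List.length_nil] at hk
      interval_cases k
      · simpa using h0
      · simpa using h1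
    · refine ⟨_, Or.inr ⟨(a, b), rfl⟩, ?_⟩
      rw [appears_word]
      refine ⟨x, fun k hk => ?_⟩
      simp only [List.length_cons, List.length_nil] at hk
      interval_cases k
      · simpa using h0
      · simpa using h1
      · simpa using h2
      · simpa using h3
      · simpa using h4

theorem upd_apply (q : (Fin 1 → ℤ) → Option Col) (p x : ℤ) (a : Col) :
    Function.update q (V p) (some a) (V x) = if x = p then some a else q (V x) := by
  by_cases h : x = p
  · subst h; simp
  · rw [Function.update_of_ne (fun he => h (V_inj.1 he)), if_neg h]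

/-- Colouring a cell of the line. -/
def setc (c : ℤ → Option Col) (p : ℤ) (a : Col) : ℤ → Option Col :=
  fun x => if x = p then some a else c x

/-- The positions of the line from which `B` (with `A` to move) defends himself. -/
structure Inv (c : ℤ → Option Col) : Prop where
  rr : ∀ x i, c x = some (r i) → ∃ d, c (x + 1) = some d ∧ d ≠ l i
  ll : ∀ x i, c x = some (l i) → ∃ d, c (x - 1) = some d ∧ d ≠ r i
  d1 : ∀ z a b, c z = some (r 0) → c (z + 1) = some (l a) → c (z + 2) = some (l b) →
    (c (z - 1) = none ∨ c (z - 1) = some (r a)) →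
    (c (z - 2) = none ∨ c (z - 2) = some (r b)) → False
  d2 : ∀ z a b, c z = some (r 0) → c (z + 1) = some (l a) → c (z - 1) = some (r a) →
    c (z - 2) = some (r b) → (c (z + 2) = none ∨ c (z + 2) = some (l b)) → False

theorem inv_not_bad (c : ℤ → Option Col) (h : Inv c) : ¬ Bad c := by
  rintro (⟨x, i, h0, h1⟩ | ⟨x, a, b, h0, h1, h2, h3, h4⟩)
  · obtain ⟨d, hd, hne⟩ := h.rr x i h0
    rw [h1] at hd
    exact hne (Option.some.inj hd).symm
  · refine h.d1 (x + 2) a b h2 (by rw [← h3]; congr 1; ring) (by rw [← h4]; congr 1; ring)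
      (Or.inr (by rw [← h1]; congr 1; ring)) (Or.inr (by rw [← h0]; congr 1; ring))


/-- Forced reply to an `r`. -/
theorem caseR1 (c : ℤ → Option Col) (h : Inv c) (p : ℤ) (i e : Fin 3) (hp : c p = none)
    (hp1 : c (p + 1) = none) (he : e ≠ i) : Inv (setc (setc c p (r i)) (p + 1) (l e)) := by
  obtain ⟨rr, ll, d1, d2⟩ := h
  refine ⟨?_, ?_, ?_, ?_⟩
  · intro x j hx
    have h1 := rr x j
    clear rr ll d1 d2
    unfold setc at hx ⊢
    grind (splits := 40)
  · intro x j hx
    have h1 := ll x j
    clear rr ll d1 d2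
    unfold setc at hx ⊢
    grind (splits := 40)
  · intro z a b h0 h1 h2 h3 h4
    have i1 := d1 z a b
    have i2 := ll (z + 2) b
    have i3 := ll (z + 1) a
    clear rr ll d1 d2
    unfold setc at *
    grind (splits := 40)
  · intro z a b h0 h1 h2 h3 h4
    have i1 := d2 z a b
    have i2 := ll (z + 2) b
    have i3 := ll (z + 1) a
    have i4 := rr (z - 1) a
    have i5 := rr (z - 2) b
    clear rr ll d1 d2
    unfold setc at *
    grind (splits := 40)

theorem caseL1 (c : ℤ → Option Col) (h : Inv c) (p : ℤ) (i e : Fin 3) (hp : c p = none)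
    (hp1 : c (p - 1) = none) (he : e ≠ i) (he0 : e ≠ 0) :
    Inv (setc (setc c p (l i)) (p - 1) (r e)) := by
  obtain ⟨rr, ll, d1, d2⟩ := h
  refine ⟨?_, ?_, ?_, ?_⟩
  · intro x j hx
    have h1 := rr x j
    have h2 := ll (x + 1) j
    clear rr ll d1 d2
    unfold setc at hx ⊢
    grind (splits := 40)
  · intro x j hx
    have h1 := ll x j
    have h2 := rr (x - 1) j
    clear rr ll d1 d2
    unfold setc at hx ⊢
    grind (splits := 40)
  · intro z a b h0 h1 h2 h3 h4
    have i1 := d1 z a b
    have i2 := ll (z + 2) b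
    have i3 := ll (z + 1) a
    have i4 := rr (z - 1) a
    have i5 := rr (z - 2) b
    have i6 := rr z 0
    clear rr ll d1 d2
    unfold setc at *
    grind (splits := 40)
  · intro z a b h0 h1 h2 h3 h4
    have i1 := d2 z a b
    have i2 := ll (z + 2) b
    have i3 := ll (z + 1) a
    have i4 := rr (z - 1) a
    have i5 := rr (z - 2) b
    have i6 := rr z 0
    clear rr ll d1 d2
    unfold setc at *
    grind (splits := 40)

theorem caseR2 (c : ℤ → Option Col) (h : Inv c) (p : ℤ) (i k : Fin 3) (hp : c p = none)
    (hp1 : c (p + 1) = some (r k))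
    (hno : ¬ (c (p + 2) = some (r 0) ∧ c (p + 3) = some (l k) ∧ c (p + 4) = none)) :
    Inv (setc c p (r i)) := by
  obtain ⟨rr, ll, d1, d2⟩ := h
  refine ⟨?_, ?_, ?_, ?_⟩
  · intro x j hx
    have h1 := rr x j
    have h2 := ll (x + 1) j
    have j1 := d1 (p + 2) k i
    clear rr ll d1 d2
    unfold setc at hx ⊢
    grind (splits := 40)
  · intro x j hx
    have h1 := ll x j
    have h2 := rr (x - 1) j
    have j1 := d1 (p + 2) k i
    clear rr ll d1 d2
    unfold setc at hx ⊢
    grind (splits := 40)
  · intro z a b h0 h1 h2 h3 h4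
    have i1 := d1 z a b
    have i2 := ll (z + 2) b
    have i3 := ll (z + 1) a
    have i4 := rr (z - 1) a
    have i5 := rr (z - 2) b
    have i6 := rr z 0
    have j1 := d1 (p + 2) k i
    clear rr ll d1 d2
    unfold setc at *
    grind (splits := 40)
  · intro z a b h0 h1 h2 h3 h4
    have i1 := d2 z a b
    have i2 := ll (z + 2) b
    have i3 := ll (z + 1) a
    have i4 := rr (z - 1) a
    have i5 := rr (z - 2) b
    have i6 := rr z 0
    have j1 := d1 (p + 2) k i
    clear rr ll d1 d2
    unfold setc at *
    grind (splits := 40)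

theorem caseR3 (c : ℤ → Option Col) (h : Inv c) (p : ℤ) (i k e : Fin 3) (hp : c p = none)
    (hp1 : c (p + 1) = some (r k)) (hp2 : c (p + 2) = some (r 0)) (hp3 : c (p + 3) = some (l k))
    (hp4 : c (p + 4) = none) (he : e ≠ i) :
    Inv (setc (setc c p (r i)) (p + 4) (l e)) := by
  obtain ⟨rr, ll, d1, d2⟩ := h
  refine ⟨?_, ?_, ?_, ?_⟩
  · intro x j hx
    have h1 := rr x j
    have h2 := ll (x + 1) j
    clear rr ll d1 d2
    unfold setc at hx ⊢
    grind (splits := 40)
  · intro x j hx
    have h1 := ll x j
    have h2 := rr (x - 1) j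
    clear rr ll d1 d2
    unfold setc at hx ⊢
    grind (splits := 40)
  · intro z a b h0 h1 h2 h3 h4
    have i1 := d1 z a b
    have i2 := ll (z + 2) b
    have i3 := ll (z + 1) a
    have i4 := rr (z - 1) a
    have i5 := rr (z - 2) b
    have i6 := rr z 0
    clear rr ll d1 d2
    unfold setc at *
    grind (splits := 40)
  · intro z a b h0 h1 h2 h3 h4
    have i1 := d2 z a b
    have i2 := ll (z + 2) b
    have i3 := ll (z + 1) a
    have i4 := rr (z - 1) a
    have i5 := rr (z - 2) b
    have i6 := rr z 0
    clear rr ll d1 d2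
    unfold setc at *
    grind (splits := 40)

theorem caseL2 (c : ℤ → Option Col) (h : Inv c) (p : ℤ) (i k : Fin 3) (hp : c p = none)
    (hp1 : c (p - 1) = some (l k))
    (hno : ¬ (c (p - 2) = some (r 0) ∧ (c (p - 3) = none ∨
      (c (p - 3) = some (r k) ∧ c (p - 4) = none)))) :
    Inv (setc c p (l i)) := by
  obtain ⟨rr, ll, d1, d2⟩ := h
  refine ⟨?_, ?_, ?_, ?_⟩
  · intro x j hx
    have h1 := rr x j
    have h2 := ll (x + 1) j
    have j1 := d2 (p - 2) k i
    clear rr ll d1 d2
    unfold setc at hx ⊢
    grind (splits := 40)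
  · intro x j hx
    have h1 := ll x j
    have h2 := rr (x - 1) j
    have j1 := d2 (p - 2) k i
    clear rr ll d1 d2
    unfold setc at hx ⊢
    grind (splits := 40)
  · intro z a b h0 h1 h2 h3 h4
    have i1 := d1 z a b
    have i2 := ll (z + 2) b
    have i3 := ll (z + 1) a
    have i4 := rr (z - 1) a
    have i5 := rr (z - 2) b
    have i6 := rr z 0
    have j1 := d2 (p - 2) k i
    clear rr ll d1 d2
    unfold setc at *
    grind (splits := 40)
  · intro z a b h0 h1 h2 h3 h4
    have i1 := d2 z a b
    have i2 := ll (z + 2) b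
    have i3 := ll (z + 1) a
    have i4 := rr (z - 1) a
    have i5 := rr (z - 2) b
    have i6 := rr z 0
    have j1 := d2 (p - 2) k i
    clear rr ll d1 d2
    unfold setc at *
    grind (splits := 40)

theorem caseL3 (c : ℤ → Option Col) (h : Inv c) (p : ℤ) (i k e : Fin 3) (hp : c p = none)
    (hp1 : c (p - 1) = some (l k)) (hp2 : c (p - 2) = some (r 0)) (hp3 : c (p - 3) = none)
    (he : e ≠ k) :
    Inv (setc (setc c p (l i)) (p - 3) (r e)) := by
  obtain ⟨rr, ll, d1, d2⟩ := h
  refine ⟨?_, ?_, ?_, ?_⟩
  · intro x j hx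
    have h1 := rr x j
    have h2 := ll (x + 1) j
    clear rr ll d1 d2
    unfold setc at hx ⊢
    grind (splits := 40)
  · intro x j hx
    have h1 := ll x j
    have h2 := rr (x - 1) j
    clear rr ll d1 d2
    unfold setc at hx ⊢
    grind (splits := 40)
  · intro z a b h0 h1 h2 h3 h4
    have i1 := d1 z a b
    have i2 := ll (z + 2) b
    have i3 := ll (z + 1) a
    have i4 := rr (z - 1) a
    have i5 := rr (z - 2) b
    have i6 := rr z 0
    clear rr ll d1 d2
    unfold setc at *
    grind (splits := 40)
  · intro z a b h0 h1 h2 h3 h4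
    have i1 := d2 z a b
    have i2 := ll (z + 2) b
    have i3 := ll (z + 1) a
    have i4 := rr (z - 1) a
    have i5 := rr (z - 2) b
    have i6 := rr z 0
    clear rr ll d1 d2
    unfold setc at *
    grind (splits := 40)

theorem caseL4 (c : ℤ → Option Col) (h : Inv c) (p : ℤ) (i k e : Fin 3) (hp : c p = none)
    (hp1 : c (p - 1) = some (l k)) (hp2 : c (p - 2) = some (r 0)) (hp3 : c (p - 3) = some (r k))
    (hp4 : c (p - 4) = none) (he : e ≠ i) :
    Inv (setc (setc c p (l i)) (p - 4) (r e)) := by
  obtain ⟨rr, ll, d1, d2⟩ := h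
  refine ⟨?_, ?_, ?_, ?_⟩
  · intro x j hx
    have h1 := rr x j
    have h2 := ll (x + 1) j
    clear rr ll d1 d2
    unfold setc at hx ⊢
    grind (splits := 40)
  · intro x j hx
    have h1 := ll x j
    have h2 := rr (x - 1) j
    clear rr ll d1 d2
    unfold setc at hx ⊢
    grind (splits := 40)
  · intro z a b h0 h1 h2 h3 h4
    have i1 := d1 z a b
    have i2 := ll (z + 2) b
    have i3 := ll (z + 1) a
    have i4 := rr (z - 1) a
    have i5 := rr (z - 2) b
    have i6 := rr z 0
    clear rr ll d1 d2
    unfold setc at *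
    grind (splits := 40)
  · intro z a b h0 h1 h2 h3 h4
    have i1 := d2 z a b
    have i2 := ll (z + 2) b
    have i3 := ll (z + 1) a
    have i4 := rr (z - 1) a
    have i5 := rr (z - 2) b
    have i6 := rr z 0
    clear rr ll d1 d2
    unfold setc at *
    grind (splits := 40)

theorem bad_mono (c : ℤ → Option Col) (q : ℤ) (e : Col) (hq : c q = none) (h : Bad c) :
    Bad (setc c q e) := by
  have key : ∀ x v, c x = some v → setc c q e x = some v := by
    intro x v hx
    have hne : x ≠ q := by
      rintro rfl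
      rw [hq] at hx
      exact absurd hx (by simp)
    unfold setc
    rw [if_neg hne]
    exact hx
  rcases h with ⟨x, i, h0, h1⟩ | ⟨x, a, b, h0, h1, h2, h3, h4⟩
  · exact Or.inl ⟨x, i, key _ _ h0, key _ _ h1⟩
  · exact Or.inr ⟨x, a, b, key _ _ h0, key _ _ h1, key _ _ h2, key _ _ h3, key _ _ h4⟩

theorem exists_ne (i j : Fin 3) : ∃ e : Fin 3, e ≠ i ∧ e ≠ j := by
  revert i j; decide

/-- `B` can answer every move of `A`. -/
theorem respond (c : ℤ → Option Col) (h : Inv c) (p : ℤ) (a : Col) (hp : c p = none) :
    Inv (setc c p a) ∨ ∃ q e, setc c p a q = none ∧ Inv (setc (setc c p a) q e) := by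
  have hset : ∀ q, q ≠ p → c q = none → setc c p a q = none := by
    intro q hq hc
    unfold setc
    rw [if_neg hq]
    exact hc
  cases a with
  | r i =>
    cases h1 : c (p + 1) with
    | none =>
      obtain ⟨e, he, -⟩ := exists_ne i i
      exact Or.inr ⟨p + 1, l e, hset _ (by omega) h1, caseR1 c h p i e hp h1 he⟩
    | some v =>
      cases v with
      | l k =>
        obtain ⟨d, hd, -⟩ := h.ll (p + 1) k h1
        rw [show p + 1 - 1 = p by ring, hp] at hd
        exact absurd hd (by simp)
      | r k =>
        by_cases hno : c (p + 2) = some (r 0) ∧ c (p + 3) = some (l k) ∧ c (p + 4) = none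
        · obtain ⟨e, he, -⟩ := exists_ne i i
          exact Or.inr ⟨p + 4, l e, hset _ (by omega) hno.2.2,
            caseR3 c h p i k e hp h1 hno.1 hno.2.1 hno.2.2 he⟩
        · exact Or.inl (caseR2 c h p i k hp h1 hno)
  | l i =>
    cases h1 : c (p - 1) with
    | none =>
      obtain ⟨e, he, he0⟩ := exists_ne i 0
      exact Or.inr ⟨p - 1, r e, hset _ (by omega) h1, caseL1 c h p i e hp h1 he he0⟩
    | some v =>
      cases v with
      | r k =>
        obtain ⟨d, hd, -⟩ := h.rr (p - 1) k h1
        rw [show p - 1 + 1 = p by ring, hp] at hd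
        exact absurd hd (by simp)
      | l k =>
        by_cases h2 : c (p - 2) = some (r 0)
        · by_cases h3 : c (p - 3) = none
          · obtain ⟨e, he, -⟩ := exists_ne k k
            exact Or.inr ⟨p - 3, r e, hset _ (by omega) h3,
              caseL3 c h p i k e hp h1 h2 h3 he⟩
          · by_cases h4 : c (p - 3) = some (r k) ∧ c (p - 4) = none
            · obtain ⟨e, he, -⟩ := exists_ne i i
              exact Or.inr ⟨p - 4, r e, hset _ (by omega) h4.2,
                caseL4 c h p i k e hp h1 h2 h4.1 h4.2 he⟩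
            · exact Or.inl (caseL2 c h p i k hp h1 (by tauto))
        · exact Or.inl (caseL2 c h p i k hp h1 (by tauto))

theorem line_update (q : (Fin 1 → ℤ) → Option Col) (p : ℤ) (a : Col) :
    (fun x => Function.update q (V p) (some a) (V x)) = setc (fun x => q (V x)) p a := by
  funext x
  rw [upd_apply]
  rfl

theorem not_winsA (t : Bool) (q : (Fin 1 → ℤ) → Option Col)
    (hw : WinsA F Set.univ True t q) :
    (t = true → ¬ Inv (fun x => q (V x))) ∧
    (t = false → ¬ (¬ Bad (fun x => q (V x)) ∧
      ∃ q', Move Set.univ True q q' ∧ Inv (fun x => q' (V x)))) := by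
  induction hw with
  | final h =>
    rw [final_iff] at h
    exact ⟨fun _ hI => inv_not_bad _ hI h, fun _ hI => hI.1 h⟩
  | @moveA q q' h hw ih =>
    refine ⟨fun _ hI => ?_, fun hc => absurd hc (by simp)⟩
    refine ih.2 rfl ?_
    rcases h with ⟨-, rfl⟩ | ⟨i, -, hi, a, rfl⟩
    · exact ⟨inv_not_bad _ hI, _, Or.inl ⟨trivial, rfl⟩, hI⟩
    · rw [eq_V i] at hi ⊢
      rw [line_update]
      rcases respond _ hI (i 0) a hi with h1 | ⟨p, e, hp, h1⟩
      · exact ⟨inv_not_bad _ h1, _, Or.inl ⟨trivial, rfl⟩, by rw [line_update]; exact h1⟩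
      · refine ⟨fun hb => inv_not_bad _ h1 (bad_mono _ _ _ hp hb),
          Function.update (Function.update q (V (i 0)) (some a)) (V p) (some e),
          Or.inr ⟨V p, Set.mem_univ _, ?_, e, rfl⟩, ?_⟩
        · rw [upd_apply]
          exact hp
        · rw [line_update, line_update]
          exact h1
  | @moveB q h hw ih =>
    refine ⟨fun hc => absurd hc (by simp), fun _ hI => ?_⟩
    obtain ⟨-, q', hm, hq'⟩ := hI
    exact (ih q' hm).1 rfl hq'

theorem inv_empty : Inv (fun _ => none) :=
  ⟨fun _ _ h => absurd h (by simp), fun _ _ h => absurd h (by simp),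
    fun _ _ _ h => absurd h (by simp), fun _ _ _ h => absurd h (by simp)⟩

/-- If an `r` has its right neighbour uncoloured, then `A` wins at once. -/
theorem win_r {pass : Prop} (q : (Fin 1 → ℤ) → Option Col) (x : ℤ) (i : Fin 3)
    (h0 : q (V x) = some (r i)) (h1 : q (V (x + 1)) = none) :
    WinsA F Set.univ pass true q := by
  refine WinsA.moveA (Or.inr ⟨V (x + 1), Set.mem_univ _, h1, l i, rfl⟩) (WinsA.final ?_)
  rw [final_iff]
  refine Or.inl ⟨x, i, ?_, ?_⟩
  · simp only [upd_apply]
    rw [if_neg (by omega)]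
    exact h0
  · simp only [upd_apply, if_true]

/-- If an `l` has its left neighbour uncoloured, then `A` wins at once. -/
theorem win_l {pass : Prop} (q : (Fin 1 → ℤ) → Option Col) (x : ℤ) (i : Fin 3)
    (h0 : q (V x) = some (l i)) (h1 : q (V (x - 1)) = none) :
    WinsA F Set.univ pass true q := by
  refine WinsA.moveA (Or.inr ⟨V (x - 1), Set.mem_univ _, h1, r i, rfl⟩) (WinsA.final ?_)
  rw [final_iff]
  refine Or.inl ⟨x - 1, i, ?_, ?_⟩
  · simp only [upd_apply, if_true]
  · simp only [upd_apply]
    rw [if_neg (by omega), show x - 1 + 1 = x by ring]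
    exact h0

theorem exists_move (q : (Fin 1 → ℤ) → Option Col) (x : ℤ) (h : q (V x) = none) :
    ∃ q', Move Set.univ False q q' :=
  ⟨_, Or.inr ⟨V x, Set.mem_univ _, h, r 0, rfl⟩⟩

/-- The position after `A` has played `r 0` at `0`, `B` has played `l a` at `1` and `A` has played
`r a` at `-1`. -/
theorem second (a : Fin 3) (q : (Fin 1 → ℤ) → Option Col)
    (hq : ∀ x, q (V x) = if x = -1 then some (r a) else if x = 1 then some (l a) else
      if x = 0 then some (r 0) else none) :
    WinsA F Set.univ False false q := by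
  refine WinsA.moveB (exists_move q 5 (by rw [hq]; norm_num)) ?_
  rintro q' (⟨h, -⟩ | ⟨i, -, hi, c, rfl⟩)
  · exact absurd h (by simp)
  rw [eq_V i] at hi ⊢
  generalize i 0 = x at hi ⊢
  have hx : x ≠ -1 ∧ x ≠ 1 ∧ x ≠ 0 := by
    refine ⟨?_, ?_, ?_⟩ <;> rintro rfl <;> rw [hq] at hi <;> norm_num at hi <;>
      exact absurd hi (by simp)
  cases c with
  | r b =>
    by_cases h2 : x = -2
    · subst h2
      refine WinsA.moveA (Or.inr ⟨V 2, Set.mem_univ _, ?_, l b, rfl⟩) (WinsA.final ?_)
      · rw [upd_apply, hq]; norm_num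
      · rw [final_iff]
        refine Or.inr ⟨-2, a, b, ?_, ?_, ?_, ?_, ?_⟩ <;>
          simp only [upd_apply, hq] <;> norm_num
    · refine win_r _ x b ?_ ?_
      · simp only [upd_apply, if_true]
      · rw [upd_apply, hq, if_neg (by omega), if_neg (by omega), if_neg (by omega),
          if_neg (by omega)]
  | l b =>
    by_cases h2 : x = 2
    · subst h2
      refine WinsA.moveA (Or.inr ⟨V (-2), Set.mem_univ _, ?_, r b, rfl⟩) (WinsA.final ?_)
      · rw [upd_apply, hq]; norm_num
      · rw [final_iff]
        refine Or.inr ⟨-2, a, b, ?_, ?_, ?_, ?_, ?_⟩ <;>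
          simp only [upd_apply, hq] <;> norm_num
    · refine win_l _ x b ?_ ?_
      · simp only [upd_apply, if_true]
      · rw [upd_apply, hq, if_neg (by omega), if_neg (by omega), if_neg (by omega),
          if_neg (by omega)]

theorem winsA_nopass : WinsA F Set.univ False true (fun _ => none) := by
  refine WinsA.moveA (Or.inr ⟨V 0, Set.mem_univ _, rfl, r 0, rfl⟩) ?_
  refine WinsA.moveB (exists_move _ 5 (by rw [upd_apply]; norm_num)) ?_
  rintro q' (⟨h, -⟩ | ⟨i, -, hi, c, rfl⟩)
  · exact absurd h (by simp)
  rw [eq_V i] at hi ⊢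
  generalize i 0 = x at hi ⊢
  have hx : x ≠ 0 := by
    rintro rfl
    rw [upd_apply] at hi
    norm_num at hi
    exact absurd hi (by simp)
  by_cases h1 : x = 1
  · subst h1
    cases c with
    | r b =>
      refine win_r _ 1 b ?_ ?_
      · simp only [upd_apply, if_true]
      · rw [upd_apply, upd_apply]; norm_num
    | l b =>
      refine WinsA.moveA (Or.inr ⟨V (-1), Set.mem_univ _, ?_, r b, rfl⟩) (second b _ ?_)
      · rw [upd_apply, upd_apply]; norm_num
      · intro x
        simp only [upd_apply]
  · refine win_r _ 0 0 ?_ ?_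
    · rw [upd_apply, upd_apply, if_neg (by omega), if_pos rfl]
    · rw [upd_apply, upd_apply, if_neg (by omega), if_neg (by omega)]

/-- There are a finite alphabet and a finite set `F` of finite patterns on the line such that the domino
game on the whole line with forbidden patterns `F` is winning for `A` if passing is not allowed and
winning for `B` if passing is allowed. -/
theorem result : ∃ (𝒜 : Type) (_ : Finite 𝒜) (F : Set (Pattern 1 𝒜)), F.Finite ∧
    WinsA F Set.univ False true (fun _ => none) ∧
    ¬ WinsA F Set.univ True true (fun _ => none) :=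
  ⟨Col, inferInstance, F, F_finite, winsA_nopass, fun h => (not_winsA true _ h).1 rfl inv_empty⟩

end Pool.Agent.Results.MP_d015f1_co.PassingHelps
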